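import Pool.Agent.helper53.ORT.Spec

/-!
# Row `ort:NQ`: commutators of `y` with products of two reflections
-/

set_option autoImplicit false

namespace Pool.Agent.ORT

open Module Pool.Agent.GS

theorem NQ_comm {F V : Type} [Field F] [AddCommGroup V] [Module F V]
    (B : LinearMap.BilinForm F V) (y : Equiv.Perm V) (ν : F) (hy : Sim B y (RingEquiv.refl F) ν)
    (a b : V) : y * (rf B a * rf B b) * y⁻¹ * (rf B a * rf B b)⁻¹ =
      rf B (y a) * (rf B (y b) * (rf B b * rf B a)) := by
  rw [← rf_conj hy a, ← rf_conj hy b, mul_inv_rev, rf_inv, rf_inv]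
  group

theorem NQ_fx {F V : Type} [Field F] [AddCommGroup V] [Module F V] [FiniteDimensional F V]
    (B : LinearMap.BilinForm F V) (hB : Sym B) (a b c d : V) (ha : B a a ≠ 0) (hb : B b b ≠ 0)
    (hc : B c c ≠ 0) (hd : B d d ≠ 0) :
    Fx F (rf B a * (rf B b * (rf B c * rf B d))) := by
  let Φ : V →ₗ[F] (Fin 4 → F) := LinearMap.pi ![B a, B b, B c, B d]
  refine ⟨LinearMap.ker Φ, ?_, ?_⟩
  · have h1 := LinearMap.finrank_range_add_finrank_ker Φ
    have h2 : finrank F (LinearMap.range Φ) ≤ 4 := by
      have := Submodule.finrank_le (LinearMap.range Φ)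
      rwa [Module.finrank_fin_fun] at this
    omega
  · intro u hu
    have h3 := LinearMap.mem_ker.1 hu
    have h0 : B u a = 0 := by rw [hB.symm]; exact congrFun h3 0
    have h1 : B u b = 0 := by rw [hB.symm]; exact congrFun h3 1
    have h2 : B u c = 0 := by rw [hB.symm]; exact congrFun h3 2
    have h4 : B u d = 0 := by rw [hB.symm]; exact congrFun h3 3
    rw [Equiv.Perm.mul_apply, Equiv.Perm.mul_apply, Equiv.Perm.mul_apply, rf_of_orth hd h4,
      rf_of_orth hc h2, rf_of_orth hb h1, rf_of_orth ha h0]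

theorem NQ (ug : URG_stmt) (ro : RO_stmt) : NQ_stmt := by
  intro F V _ _ _ _ _ B h2' hB h6 y ν hy a κ₀ ha hay hT
  have h2 : (2 : F) ≠ 0 := Ring.two_ne_zero h2'
  have hν : ν ≠ 0 := hy.ne
  have hform : ∀ u v, B (y u) (y v) = ν * B u v := fun u v => hy.form u v
  have hκ : ν - κ₀ ^ 2 ≠ 0 := by
    intro h
    apply hT
    have e : κ₀ ^ 2 = ν := (sub_eq_zero.1 h).symm
    rw [e, mul_div_assoc, div_self hν]
    norm_num
  have hya : B (y a) a = κ₀ * B a a := by rw [hB.symm, hay]
  have hyy : B (y a) (y a) = ν * B a a := hform a a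
  have hyn : B (y a) (y a) ≠ 0 := by rw [hyy]; exact mul_ne_zero hν ha
  have hOg : Og B ![a, y a - κ₀ • a] := by
    have e1 : B a (y a - κ₀ • a) = 0 := by
      rw [map_sub, map_smul, hay, smul_eq_mul, sub_self]
    constructor
    · intro i j hij
      fin_cases i <;> fin_cases j
      · exact absurd rfl hij
      · exact e1
      · change B (y a - κ₀ • a) a = 0
        rw [hB.symm]; exact e1
      · exact absurd rfl hij
    · intro i
      fin_cases i
      · exact ha
      · change B (y a - κ₀ • a) (y a - κ₀ • a) ≠ 0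
        have e : B (y a - κ₀ • a) (y a - κ₀ • a) = B a a * (ν - κ₀ ^ 2) := by
          simp only [map_sub, LinearMap.sub_apply, map_smul, LinearMap.smul_apply, smul_eq_mul,
            hay, hya, hyy]
          ring
        rw [e]
        exact mul_ne_zero ha hκ
  obtain ⟨b, hb1, hb2, hb3⟩ := ug B h2' hB 2 1 ![a, y a - κ₀ • a] ![y⁻¹ a] hOg (by omega) (B a a) ha
  have hba : B b a = 0 := hb1 0
  have hbya : B b (y a) = 0 := by
    have h := hb1 1
    change B b (y a - κ₀ • a) = 0 at h
    rwa [map_sub, map_smul, hba, smul_zero, sub_zero] at h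
  have hbiy : B b (y⁻¹ a) = 0 := hb2 0
  have hbn : B b b ≠ 0 := by rw [hb3]; exact ha
  have hybn : B (y b) (y b) ≠ 0 := by rw [hform]; exact mul_ne_zero hν hbn
  have hab : B a b = 0 := by rw [hB.symm, hba]
  have hyab : B (y a) b = 0 := by rw [hB.symm, hbya]
  have hyayb : B (y a) (y b) = 0 := by rw [hform, hab, mul_zero]
  have hayb : B a (y b) = 0 := by
    rw [hB.symm]
    have h := hform b (y⁻¹ a)
    rw [pinv, hbiy, mul_zero] at h
    exact h
  refine ⟨rf B a * rf B b, ro B h2' hB a b ha hbn ⟨B a a, by rw [hb3]⟩, ?_, ?_⟩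
  · rw [NQ_comm B y ν hy a b]
    refine ⟨a, y a, !![-1, -2 * κ₀; 2 * κ₀ / ν, 4 * κ₀ ^ 2 / ν - 1], ?_, ?_, ?_, ?_, ?_⟩
    · rw [LinearIndependent.pair_iff]
      intro s t hst
      have e1 := congrArg (B a) hst
      have e2 := congrArg (B (y a)) hst
      simp only [map_add, map_smul, smul_eq_mul, hay, hya, hyy, map_zero] at e1 e2
      have e3 : s + t * κ₀ = 0 := by
        have : (s + t * κ₀) * B a a = 0 := by linear_combination e1
        exact (mul_eq_zero.1 this).resolve_right ha
      have e4 : s * κ₀ + t * ν = 0 := by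
        have : (s * κ₀ + t * ν) * B a a = 0 := by linear_combination e2
        exact (mul_eq_zero.1 this).resolve_right ha
      have e5 : t = 0 := by
        have : t * (ν - κ₀ ^ 2) = 0 := by linear_combination e4 - κ₀ * e3
        exact (mul_eq_zero.1 this).resolve_right hκ
      refine ⟨?_, e5⟩
      rw [e5, zero_mul, add_zero] at e3
      exact e3
    · rw [Matrix.det_fin_two_of]
      field_simp
      ring
    · rw [Matrix.trace_fin_two_of]
      ring
    · simp only [Equiv.Perm.mul_apply]
      rw [rf_self ha, rf_of_orth hbn (by rw [map_neg, LinearMap.neg_apply, hab, neg_zero]),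
        rf_of_orth hybn (by rw [map_neg, LinearMap.neg_apply, hayb, neg_zero]), rf_apply hyn,
        map_neg, LinearMap.neg_apply, hay, hyy]
      change _ = (-1 : F) • a + (2 * κ₀ / ν) • y a
      match_scalars
      · ring
      · field_simp
    · simp only [Equiv.Perm.mul_apply]
      rw [rf_apply ha, hya]
      have e1 : B (y a - (2 * (κ₀ * B a a) / B a a) • a) b = 0 := by
        rw [map_sub, LinearMap.sub_apply, map_smul, LinearMap.smul_apply, hyab, hab, smul_zero,
          sub_zero]
      have e2 : B (y a - (2 * (κ₀ * B a a) / B a a) • a) (y b) = 0 := by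
        rw [map_sub, LinearMap.sub_apply, map_smul, LinearMap.smul_apply, hyayb, hayb, smul_zero,
          sub_zero]
      rw [rf_of_orth hbn e1, rf_of_orth hybn e2, rf_apply hyn]
      simp only [map_sub, LinearMap.sub_apply, map_smul, LinearMap.smul_apply, smul_eq_mul, hay,
        hyy]
      change _ = (-2 * κ₀) • a + (4 * κ₀ ^ 2 / ν - 1) • y a
      match_scalars
      · field_simp
        ring
      · field_simp
  · rw [NQ_comm B y ν hy a b]
    exact NQ_fx B hB _ _ _ _ hyn hybn hbn ha

end Pool.Agent.ORT
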