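import Pool.Agent.helper53.ORT.Spec

/-!
# Row `ort:SGO`: Siegel elements lie in the commutator subgroup of the orthogonal group
-/

set_option autoImplicit false

namespace Pool.Agent.ORT

open Module Pool.Agent.GS

theorem SGO_aux {F V : Type} [Field F] [AddCommGroup V] [Module F V] (ro : RO_stmt)
    (B : LinearMap.BilinForm F V) (h2' : ringChar F ≠ 2) (hB : Sym B) (u d : V) (hu : B u u = 0)
    (hd : B u d = 0) (hn : B d d ≠ 0) : sg B u d ∈ Om B := by
  have h2 : (2 : F) ≠ 0 := Ring.two_ne_zero h2'
  have hd' : B d u = 0 := by rw [hB.symm, hd]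
  have hN : B (d + (B d d / 2) • u) (d + (B d d / 2) • u) = B d d := by
    simp only [map_add, LinearMap.add_apply, map_smul, LinearMap.smul_apply, smul_eq_mul, hu, hd,
      hd', mul_zero, add_zero]
  have hn' : B (d + (B d d / 2) • u) (d + (B d d / 2) • u) ≠ 0 := by rw [hN]; exact hn
  have e : sg B u d = rf B d * rf B (d + (B d d / 2) • u) := by
    ext x
    rw [Equiv.Perm.mul_apply, sg_apply hB h2 hu hd, rf_apply hn', rf_apply hn, hN]
    simp only [map_add, map_sub, LinearMap.sub_apply, LinearMap.add_apply, map_smul,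
      LinearMap.smul_apply, smul_eq_mul, hu, hd, hd', mul_zero, add_zero]
    match_scalars <;> field_simp <;> ring
  rw [e]
  exact ro B h2' hB d _ hn hn' ⟨B d d, by rw [hN]⟩

theorem SGO_ex {F V : Type} [Field F] [AddCommGroup V] [Module F V] [FiniteDimensional F V]
    (B : LinearMap.BilinForm F V) (h2' : ringChar F ≠ 2) (hB : Sym B) (h3 : 3 ≤ finrank F V)
    (u : V) (hu : u ≠ 0) : ∃ e, B u e = 0 ∧ B e e ≠ 0 := by
  have h2 : (2 : F) ≠ 0 := Ring.two_ne_zero h2'
  by_contra hcon
  push Not at hcon
  have hw0 : ∃ w, B u w ≠ 0 := by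
    by_contra hc
    push Not at hc
    exact hu (hB.nd u hc)
  obtain ⟨w, hw⟩ := hw0
  have hpol : ∀ x y, B u x = 0 → B u y = 0 → B x y = 0 := by
    intro x y hx hy
    have h1 := hcon (x + y) (by rw [map_add, hx, hy, add_zero])
    have h4 := hcon x hx
    have h5 := hcon y hy
    simp only [map_add, LinearMap.add_apply] at h1
    rw [h4, h5, hB.symm y x] at h1
    have h6 : 2 * B x y = 0 := by linear_combination h1
    exact (mul_eq_zero.1 h6).resolve_left h2
  have hker : LinearMap.ker ((B u).prod (B w)) ≠ ⊥ := by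
    apply LinearMap.ker_ne_bot_of_finrank_lt
    rw [Module.finrank_prod, Module.finrank_self]
    omega
  obtain ⟨e, he, hne⟩ := (Submodule.ne_bot_iff _).1 hker
  have he : B u e = 0 ∧ B w e = 0 := by
    have h8 := LinearMap.mem_ker.1 he
    exact ⟨congrArg Prod.fst h8, congrArg Prod.snd h8⟩
  refine hne (hB.nd e fun x => ?_)
  have h7 : B e (x - (B u x / B u w) • w) = 0 := by
    refine hpol _ _ he.1 ?_
    rw [map_sub, map_smul, smul_eq_mul, div_mul_cancel₀ _ hw, sub_self]
  rw [map_sub, map_smul, hB.symm e w, he.2, smul_zero, sub_zero] at h7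
  exact h7

theorem SGO (ro : RO_stmt) : SGO_stmt := by
  intro F V _ _ _ _ B h2' hB h3 u d hu hd
  have h2 : (2 : F) ≠ 0 := Ring.two_ne_zero h2'
  by_cases hn : B d d ≠ 0
  · exact SGO_aux ro B h2' hB u d hu hd hn
  · rw [not_not] at hn
    by_cases hu0 : u = 0
    · subst hu0
      have e : sg B 0 d = 1 := by
        ext x
        rw [sg_apply hB h2 hu hd]
        simp
      rw [e]
      exact (Om B).one_mem
    · obtain ⟨e, he, hne⟩ := SGO_ex B h2' hB h3 u hu0
      by_cases hm : B (d - e) (d - e) ≠ 0
      · have h4 : B u (d - e) = 0 := by rw [map_sub, hd, he, sub_zero]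
        have h5 := sg_add hB h2 hu h4 he
        rw [sub_add_cancel] at h5
        rw [← h5]
        exact (Om B).mul_mem (SGO_aux ro B h2' hB u _ hu h4 hm) (SGO_aux ro B h2' hB u _ hu he hne)
      · rw [not_not] at hm
        have he' : B u (-e) = 0 := by rw [map_neg, he, neg_zero]
        have h4 : B u (d + e) = 0 := by rw [map_add, hd, he, add_zero]
        have h5 := sg_add hB h2 hu h4 he'
        rw [add_neg_cancel_right] at h5
        rw [← h5]
        refine (Om B).mul_mem (SGO_aux ro B h2' hB u _ hu h4 ?_) (SGO_aux ro B h2' hB u _ hu he' ?_)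
        · intro h6
          simp only [map_sub, map_add, LinearMap.sub_apply, LinearMap.add_apply, hn] at hm h6
          have h7 : 2 * B e e = 0 := by linear_combination hm + h6
          exact hne ((mul_eq_zero.1 h7).resolve_left h2)
        · simp only [map_neg, LinearMap.neg_apply, neg_neg]
          exact hne

end Pool.Agent.ORT
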